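import Mathlib

/-!
# Geometry of unit discs with centres on a thin triple
-/

set_option autoImplicit false

namespace Pool.Agent.R6.PD

/-- The aligned form: `q = (0,0)`, `r = (h,0)`, `p = (-a,c)`. The point `(x,y)` is within distance
one of `q` only, the point `(x',y')` is within distance one of `p` and `r` only. -/
theorem aligned {ε h a c x y x' y' : ℝ} (hε : ε ≤ 1 / 100) (hh : 0 < h) (hhε : h ≤ ε)
    (ha : 0 < a) (haε : a ≤ ε) (hc : 0 ≤ c) (hca : c ≤ 2 * ε * a)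
    (h1 : x ^ 2 + y ^ 2 ≤ 1) (h2 : 1 < (x - h) ^ 2 + y ^ 2) (h3 : 1 < (x + a) ^ 2 + (y - c) ^ 2)
    (h1' : 1 < x' ^ 2 + y' ^ 2) (h2' : (x' - h) ^ 2 + y' ^ 2 ≤ 1)
    (h3' : (x' + a) ^ 2 + (y' - c) ^ 2 ≤ 1) :
    |x| ≤ 3 * ε ∧ |x'| ≤ 3 * ε ∧ 1 - 16 * ε ^ 2 ≤ y' ∧ y' ≤ 1 ∧ -1 ≤ y ∧ y ≤ -(1 - 16 * ε ^ 2) := by
  have hε0 : 0 < ε := lt_of_lt_of_le hh hhε
  have e1 : 0 < h * (2 * x' - h) := by linarith
  have hx'h : 0 < 2 * x' - h := (pos_iff_pos_of_mul_pos e1).1 hh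
  have e2 : 0 < h * (h - 2 * x) := by linarith
  have hxh : 0 < h - 2 * x := (pos_iff_pos_of_mul_pos e2).1 hh
  have hx'0 : 0 < x' := by linarith
  have hxx : x < x' := by linarith
  have hcy : a * x' < c * y' := by linarith [sq_nonneg a, sq_nonneg c]
  have hy'1 : y' ≤ 1 := by
    have : y' ^ 2 ≤ 1 := by linarith [sq_nonneg (x' - h)]
    exact (abs_le.1 ((sq_le_one_iff_abs_le_one y').1 this)).2
  have hc0 : 0 < c := by
    rcases hc.lt_or_eq with h | h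
    · exact h
    · exfalso
      rw [← h, zero_mul] at hcy
      linarith [mul_pos ha hx'0]
  have hy'0 : 0 < y' := by
    have : 0 < c * y' := lt_trans (mul_pos ha hx'0) hcy
    exact (pos_iff_pos_of_mul_pos this).1 hc0
  have hx'ε : x' < 2 * ε := by
    have h4 : a * x' < a * (2 * ε) := by
      have h5 : c * y' ≤ c * 1 := mul_le_mul_of_nonneg_left hy'1 hc
      linarith
    exact lt_of_mul_lt_mul_left h4 ha.le
  have hε2 : ε ^ 2 ≤ 1 / 10000 := by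
    have : ε * ε ≤ (1 / 100) * (1 / 100) := mul_le_mul hε hε hε0.le (by norm_num)
    linarith [sq ε]
  have hy'lo : 1 - 4 * ε ^ 2 < y' := by
    have h5 : x' ^ 2 < (2 * ε) ^ 2 := pow_lt_pow_left₀ hx'ε hx'0.le (by norm_num)
    have h6 : y' ^ 2 ≤ y' := by
      have := mul_le_mul_of_nonneg_left hy'1 hy'0.le
      linarith [sq y']
    linarith [mul_pow 2 ε 2]
  have hyab : y ^ 2 ≤ 1 := by linarith [sq_nonneg x]
  obtain ⟨hy1, hy2⟩ := abs_le.1 ((sq_le_one_iff_abs_le_one y).1 hyab)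
  have hxlo : -(3 * ε) < x := by
    have h6 : 0 < 2 * a * x + a ^ 2 - 2 * c * y + c ^ 2 := by linarith
    have h7 : -(c * y) ≤ c * 1 := by
      have := mul_le_mul_of_nonneg_left (by linarith : -y ≤ 1) hc
      linarith
    have h8 : c ^ 2 ≤ (2 * ε * a) ^ 2 := pow_le_pow_left₀ hc hca 2
    have h10 : 0 < a * (2 * x + a + 4 * ε + 4 * ε ^ 2 * a) := by
      have : (2 * ε * a) ^ 2 = 4 * ε ^ 2 * a * a := by ring
      linarith
    have h11 := (pos_iff_pos_of_mul_pos h10).1 ha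
    have h12 : ε ^ 2 * a ≤ ε ^ 2 * ε := mul_le_mul_of_nonneg_left haε (by positivity)
    have h13 : ε ^ 2 * ε ≤ (1 / 10000) * ε := mul_le_mul_of_nonneg_right hε2 hε0.le
    linarith
  have hysq : 1 - 16 * ε ^ 2 < y ^ 2 := by
    have h12 : (h - x) ^ 2 < (4 * ε) ^ 2 := by
      apply pow_lt_pow_left₀ _ (by linarith) (by norm_num)
      linarith
    have h13 : (h - x) ^ 2 = (x - h) ^ 2 := by ring
    have h14 : (4 * ε) ^ 2 = 16 * ε ^ 2 := by ring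
    linarith
  have hyneg : y < 0 := by
    by_contra hy
    push Not at hy
    have h13 : a * (x' - x) < c * (y' - y) := by linarith
    have h14 : 0 < y' - y := by
      have : 0 < c * (y' - y) := lt_trans (mul_pos ha (by linarith)) h13
      exact (pos_iff_pos_of_mul_pos this).1 hc0
    have h15 : x' - x < 2 * ε * (y' - y) := by
      have h16 : a * (x' - x) < a * (2 * ε * (y' - y)) := by
        have : c * (y' - y) ≤ 2 * ε * a * (y' - y) := mul_le_mul_of_nonneg_right hca h14.le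
        linarith
      exact lt_of_mul_lt_mul_left h16 ha.le
    have h17 : (y' - y) * (y' + y) < (x' - x) * (2 * h - x - x') := by linarith
    have h18 : (x' - x) * (2 * h - x - x') ≤ (x' - x) * (5 * ε) := by
      apply mul_le_mul_of_nonneg_left _ (by linarith)
      linarith
    have h19 : (x' - x) * (5 * ε) ≤ 2 * ε * (y' - y) * (5 * ε) :=
      mul_le_mul_of_nonneg_right h15.le (by positivity)
    have h20 : (y' - y) * (y' + y) < (y' - y) * (10 * ε ^ 2) := by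
      have : 2 * ε * (y' - y) * (5 * ε) = (y' - y) * (10 * ε ^ 2) := by ring
      linarith
    have h21 := lt_of_mul_lt_mul_left h20 h14.le
    linarith
  refine ⟨?_, ?_, ?_, hy'1, hy1, ?_⟩
  · rw [abs_le]; constructor <;> linarith
  · rw [abs_le]; constructor <;> linarith
  · have : 0 < ε ^ 2 := by positivity
    linarith
  · have h6 : y ^ 2 ≤ -y := by
      have := mul_le_mul_of_nonneg_right (by linarith : -y ≤ 1) (by linarith : 0 ≤ -y)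
      linarith [sq y]
    linarith

/-- The plane. -/
abbrev Pl := EuclideanSpace ℝ (Fin 2)

/-- The square of the distance. -/
def D (x y : Pl) : ℝ := (x 0 - y 0) ^ 2 + (x 1 - y 1) ^ 2

theorem D_eq (x y : Pl) : D x y = dist x y ^ 2 := by
  rw [EuclideanSpace.dist_eq, Real.sq_sqrt (by positivity), Fin.sum_univ_two, Real.dist_eq,
    Real.dist_eq, sq_abs, sq_abs]
  rfl

theorem D_le {x y : Pl} {R : ℝ} (hR : 0 ≤ R) : dist x y ≤ R ↔ D x y ≤ R ^ 2 := by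
  rw [D_eq]
  exact (pow_le_pow_iff_left₀ dist_nonneg hR (by norm_num)).symm

theorem D_le_one {x y : Pl} : dist x y ≤ 1 ↔ D x y ≤ 1 := by
  have := D_le (x := x) (y := y) (zero_le_one' ℝ)
  rwa [one_pow] at this

/-- `q` is close to `p` and `r` and the directions from `p` to `q` and from `q` to `r` are nearly
the same. -/
def Thin (p q r : Pl) : Prop :=
  ∃ s t u₀ u₁ v₀ v₁ : ℝ, 0 < s ∧ s ≤ 1 / 1000 ∧ 0 < t ∧ t ≤ 1 / 1000 ∧ u₀ ^ 2 + u₁ ^ 2 = 1 ∧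
    v₀ ^ 2 + v₁ ^ 2 = 1 ∧ (u₀ - v₀) ^ 2 + (u₁ - v₁) ^ 2 ≤ (1 / 1000) ^ 2 ∧
    q 0 - p 0 = s * u₀ ∧ q 1 - p 1 = s * u₁ ∧ r 0 - q 0 = t * v₀ ∧ r 1 - q 1 = t * v₁

theorem thin_pair {p q r b b' : Pl} (h : Thin p q r) (h1 : D b q ≤ 1) (h2 : 1 < D b r)
    (h3 : 1 < D b p) (h1' : 1 < D b' q) (h2' : D b' r ≤ 1) (h3' : D b' p ≤ 1) :
    (2 - 1 / 10000) ^ 2 ≤ D b b' ∧
      ((b 0 + b' 0) / 2 - q 0) ^ 2 + ((b 1 + b' 1) / 2 - q 1) ^ 2 ≤ (1 / 100) ^ 2 := by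
  obtain ⟨s, t, u₀, u₁, v₀, v₁, hs, hs', ht, ht', hu, hv, huv, p0, p1, r0, r1⟩ := h
  set k := u₀ * v₁ - u₁ * v₀ with hk
  set g := u₀ * v₀ + u₁ * v₁ with hg
  have hgk : g ^ 2 + k ^ 2 = 1 := by
    have : g ^ 2 + k ^ 2 = (u₀ ^ 2 + u₁ ^ 2) * (v₀ ^ 2 + v₁ ^ 2) := by rw [hg, hk]; ring
    rw [this, hu, hv, one_mul]
  have hg1 : g ≤ 1 := by
    have : g ^ 2 ≤ 1 := by linarith [sq_nonneg k]
    exact (abs_le.1 ((sq_le_one_iff_abs_le_one g).1 this)).2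
  have hg2 : 1 - 1 / 2000000 ≤ g := by
    have : (u₀ - v₀) ^ 2 + (u₁ - v₁) ^ 2 = 2 - 2 * g := by
      have : (u₀ - v₀) ^ 2 + (u₁ - v₁) ^ 2 = (u₀ ^ 2 + u₁ ^ 2) + (v₀ ^ 2 + v₁ ^ 2) - 2 * g := by
        rw [hg]; ring
      rw [this, hu, hv]; ring
    rw [this] at huv
    norm_num at huv
    linarith
  have hk2 : k ^ 2 ≤ (1 / 1000) ^ 2 := by
    have : (1 - 1 / 2000000) * (1 - 1 / 2000000) ≤ g * g :=
      mul_le_mul hg2 hg2 (by norm_num) (by linarith)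
    have h6 : g * g = g ^ 2 := by ring
    rw [h6] at this
    norm_num at this ⊢
    linarith
  have hkabs : |k| ≤ 1 / 1000 := abs_le_of_sq_le_sq hk2 (by norm_num)
  -- the aligned coordinates
  obtain ⟨σ, hσ, hσk⟩ : ∃ σ : ℝ, σ ^ 2 = 1 ∧ σ * k = |k| := by
    rcases le_total 0 k with h | h
    · exact ⟨1, by norm_num, by rw [abs_of_nonneg h, one_mul]⟩
    · exact ⟨-1, by norm_num, by rw [abs_of_nonpos h]; ring⟩
  have key : ∀ w : Pl, D w q = ((w 0 - q 0) * v₀ + (w 1 - q 1) * v₁) ^ 2 +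
      (σ * (-(w 0 - q 0) * v₁ + (w 1 - q 1) * v₀)) ^ 2 := by
    intro w
    have : ((w 0 - q 0) * v₀ + (w 1 - q 1) * v₁) ^ 2 +
      (σ * (-(w 0 - q 0) * v₁ + (w 1 - q 1) * v₀)) ^ 2 =
      ((w 0 - q 0) * v₀ + (w 1 - q 1) * v₁) ^ 2 +
      σ ^ 2 * (-(w 0 - q 0) * v₁ + (w 1 - q 1) * v₀) ^ 2 := by ring
    rw [this, hσ, D]
    have : ((w 0 - q 0) * v₀ + (w 1 - q 1) * v₁) ^ 2 +
      1 * (-(w 0 - q 0) * v₁ + (w 1 - q 1) * v₀) ^ 2 =
      ((w 0 - q 0) ^ 2 + (w 1 - q 1) ^ 2) * (v₀ ^ 2 + v₁ ^ 2) := by ring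
    rw [this, hv, mul_one]
  have keyr : ∀ w : Pl, D w r = ((w 0 - q 0) * v₀ + (w 1 - q 1) * v₁ - t) ^ 2 +
      (σ * (-(w 0 - q 0) * v₁ + (w 1 - q 1) * v₀)) ^ 2 := by
    intro w
    have e : D w r = D w q - 2 * t * ((w 0 - q 0) * v₀ + (w 1 - q 1) * v₁) +
        t ^ 2 * (v₀ ^ 2 + v₁ ^ 2) := by
      rw [D, D, show r 0 = q 0 + t * v₀ by linarith, show r 1 = q 1 + t * v₁ by linarith]
      ring
    rw [e, hv, key]
    ring
  have keyp : ∀ w : Pl, D w p = ((w 0 - q 0) * v₀ + (w 1 - q 1) * v₁ + s * g) ^ 2 +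
      (σ * (-(w 0 - q 0) * v₁ + (w 1 - q 1) * v₀) - s * |k|) ^ 2 := by
    intro w
    have e : D w p = D w q + 2 * s * ((w 0 - q 0) * u₀ + (w 1 - q 1) * u₁) +
        s ^ 2 * (u₀ ^ 2 + u₁ ^ 2) := by
      rw [D, D, show p 0 = q 0 - s * u₀ by linarith, show p 1 = q 1 - s * u₁ by linarith]
      ring
    have e2 : ((w 0 - q 0) * u₀ + (w 1 - q 1) * u₁) * (v₀ ^ 2 + v₁ ^ 2) =
        ((w 0 - q 0) * v₀ + (w 1 - q 1) * v₁) * g -
        (-(w 0 - q 0) * v₁ + (w 1 - q 1) * v₀) * k := by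
      rw [hg, hk]; ring
    rw [hv, mul_one] at e2
    have e3 : (-(w 0 - q 0) * v₁ + (w 1 - q 1) * v₀) * k =
        σ * (-(w 0 - q 0) * v₁ + (w 1 - q 1) * v₀) * |k| := by
      rw [← hσk]
      have : σ * (-(w 0 - q 0) * v₁ + (w 1 - q 1) * v₀) * (σ * k) =
        σ ^ 2 * ((-(w 0 - q 0) * v₁ + (w 1 - q 1) * v₀) * k) := by ring
      rw [this, hσ, one_mul]
    have e4 : s ^ 2 * g ^ 2 + s ^ 2 * |k| ^ 2 = s ^ 2 := by
      rw [sq_abs, ← mul_add, hgk, mul_one]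
    rw [e, hu, e2, e3, key]
    linear_combination (-1 : ℝ) * e4
  rw [key] at h1 h1'
  rw [keyr] at h2 h2'
  rw [keyp] at h3 h3'
  have hsg : s * (1 / 2) ≤ s * g := mul_le_mul_of_nonneg_left (by linarith) hs.le
  have hsg1 : s * g ≤ s * 1 := mul_le_mul_of_nonneg_left hg1 hs.le
  have hsk : s * |k| ≤ s * (1 / 1000) := mul_le_mul_of_nonneg_left hkabs hs.le
  obtain ⟨c1, c2, c3, c4, c5, c6⟩ := aligned (ε := 1 / 1000) (by norm_num) ht ht'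
    (by linarith : 0 < s * g) (by linarith) (by positivity) (by linarith) h1 h2 h3 h1' h2' h3'
  set X := (b 0 - q 0) * v₀ + (b 1 - q 1) * v₁ with hX
  set X' := (b' 0 - q 0) * v₀ + (b' 1 - q 1) * v₁ with hX'
  set Y := σ * (-(b 0 - q 0) * v₁ + (b 1 - q 1) * v₀) with hY
  set Y' := σ * (-(b' 0 - q 0) * v₁ + (b' 1 - q 1) * v₀) with hY'
  have dd : D b b' = (X - X') ^ 2 + (Y - Y') ^ 2 := by
    have : (X - X') ^ 2 + (Y - Y') ^ 2 = ((b 0 - b' 0) * v₀ + (b 1 - b' 1) * v₁) ^ 2 +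
        σ ^ 2 * (-(b 0 - b' 0) * v₁ + (b 1 - b' 1) * v₀) ^ 2 := by
      rw [hX, hX', hY, hY']; ring
    rw [this, hσ, D]
    have : ((b 0 - b' 0) * v₀ + (b 1 - b' 1) * v₁) ^ 2 +
        1 * (-(b 0 - b' 0) * v₁ + (b 1 - b' 1) * v₀) ^ 2 =
        ((b 0 - b' 0) ^ 2 + (b 1 - b' 1) ^ 2) * (v₀ ^ 2 + v₁ ^ 2) := by ring
    rw [this, hv, mul_one]
  have mm : ((b 0 + b' 0) / 2 - q 0) ^ 2 + ((b 1 + b' 1) / 2 - q 1) ^ 2 =
      ((X + X') / 2) ^ 2 + ((Y + Y') / 2) ^ 2 := by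
    have : ((X + X') / 2) ^ 2 + ((Y + Y') / 2) ^ 2 =
        (((b 0 + b' 0) / 2 - q 0) * v₀ + ((b 1 + b' 1) / 2 - q 1) * v₁) ^ 2 +
        σ ^ 2 * (-((b 0 + b' 0) / 2 - q 0) * v₁ + ((b 1 + b' 1) / 2 - q 1) * v₀) ^ 2 := by
      rw [hX, hX', hY, hY']; ring
    rw [this, hσ]
    have : (((b 0 + b' 0) / 2 - q 0) * v₀ + ((b 1 + b' 1) / 2 - q 1) * v₁) ^ 2 +
        1 * (-((b 0 + b' 0) / 2 - q 0) * v₁ + ((b 1 + b' 1) / 2 - q 1) * v₀) ^ 2 =
        (((b 0 + b' 0) / 2 - q 0) ^ 2 + ((b 1 + b' 1) / 2 - q 1) ^ 2) * (v₀ ^ 2 + v₁ ^ 2) := by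
      ring
    rw [this, hv, mul_one]
  norm_num at c1 c2 c3 c6
  obtain ⟨c11, c12⟩ := abs_le.1 c1
  obtain ⟨c21, c22⟩ := abs_le.1 c2
  constructor
  · rw [dd]
    have : (2 - 1 / 10000 : ℝ) ^ 2 ≤ (Y' - Y) ^ 2 := by
      apply pow_le_pow_left₀ (by norm_num)
      linarith
    have h7 : (Y' - Y) ^ 2 = (Y - Y') ^ 2 := by ring
    linarith [sq_nonneg (X - X')]
  · rw [mm]
    have h8 : ((X + X') / 2) ^ 2 ≤ (1 / 300) ^ 2 := by
      rw [sq_le_sq, abs_of_pos (by norm_num : (0:ℝ) < 1 / 300), abs_le]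
      constructor <;> linarith
    have h9 : ((Y + Y') / 2) ^ 2 ≤ (1 / 300) ^ 2 := by
      rw [sq_le_sq, abs_of_pos (by norm_num : (0:ℝ) < 1 / 300), abs_le]
      constructor <;> linarith
    norm_num at h8 h9 ⊢
    linarith

end Pool.Agent.R6.PD
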