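import Pool.Agent.R6.PD.Ram

/-!
# The contradiction for a layered family of points
-/

set_option autoImplicit false

namespace Pool.Agent.R6.PD

theorem thin_pair' {p q r b b' : Pl} (h : Thin p q r) (h1 : D b q ≤ 1) (h2 : 1 < D b r)
    (h3 : 1 < D b p) (h1' : 1 < D b' q) (h2' : D b' r ≤ 1) (h3' : D b' p ≤ 1) :
    (2 - 1 / 10000) ^ 2 ≤ D b b' ∧ dist (midpoint ℝ b b') q ≤ 1 / 100 := by
  obtain ⟨g1, g2⟩ := thin_pair h h1 h2 h3 h1' h2' h3'
  refine ⟨g1, ?_⟩
  have h0 : (midpoint ℝ b b') 0 = (b 0 + b' 0) / 2 := by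
    simp [midpoint_eq_smul_add]; ring
  have h1 : (midpoint ℝ b b') 1 = (b 1 + b' 1) / 2 := by
    simp [midpoint_eq_smul_add]; ring
  rw [D_le (by norm_num), D, h0, h1]
  exact g2

theorem Thin.ne {p q r : Pl} (h : Thin p q r) : p ≠ q ∧ q ≠ r ∧ p ≠ r := by
  obtain ⟨s, t, u₀, u₁, v₀, v₁, hs, hs', ht, ht', hu, hv, huv, p0, p1, r0, r1⟩ := h
  refine ⟨?_, ?_, ?_⟩
  · rintro rfl
    rw [sub_self] at p0 p1
    have e0 : u₀ = 0 := by
      rcases mul_eq_zero.1 p0.symm with h | h
      · exact absurd h hs.ne'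
      · exact h
    have e1 : u₁ = 0 := by
      rcases mul_eq_zero.1 p1.symm with h | h
      · exact absurd h hs.ne'
      · exact h
    rw [e0, e1] at hu
    norm_num at hu
  · rintro rfl
    rw [sub_self] at r0 r1
    have e0 : v₀ = 0 := by
      rcases mul_eq_zero.1 r0.symm with h | h
      · exact absurd h ht.ne'
      · exact h
    have e1 : v₁ = 0 := by
      rcases mul_eq_zero.1 r1.symm with h | h
      · exact absurd h ht.ne'
      · exact h
    rw [e0, e1] at hv
    norm_num at hv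
  · rintro rfl
    have a0 : s * u₀ + t * v₀ = 0 := by linarith
    have a1 : s * u₁ + t * v₁ = 0 := by linarith
    have hg : s * (u₀ * v₀ + u₁ * v₁) + t = 0 := by
      have : s * (u₀ * v₀ + u₁ * v₁) + t * (v₀ ^ 2 + v₁ ^ 2) =
        (s * u₀ + t * v₀) * v₀ + (s * u₁ + t * v₁) * v₁ := by ring
      rw [hv, a0, a1] at this
      linarith
    have h2 : (u₀ - v₀) ^ 2 + (u₁ - v₁) ^ 2 = 2 - 2 * (u₀ * v₀ + u₁ * v₁) := by
      have : (u₀ - v₀) ^ 2 + (u₁ - v₁) ^ 2 =
        (u₀ ^ 2 + u₁ ^ 2) + (v₀ ^ 2 + v₁ ^ 2) - 2 * (u₀ * v₀ + u₁ * v₁) := by ring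
      rw [this, hu, hv]; ring
    rw [h2] at huv
    have h3 : 0 < u₀ * v₀ + u₁ * v₁ := by
      norm_num at huv
      linarith
    have := mul_pos hs h3
    linarith

theorem L1_pos : 0 < L1 := by rw [L1]; exact Nat.succ_pos _

theorem K1_pos : 0 < K1 := by rw [K1]; exact Nat.succ_pos _

/-- No placement of a layered system of points in the plane realizes all patterns. -/
theorem no_placement {V : Type} (back : V → Fin 3 → V) (sg : V → Fin 3 → Bool) (lev : V → ℕ)
    (hext : ∀ l, l < 3 → ∀ (x : Fin 3 → V) (s : Fin 3 → Bool), (∀ j, lev (x j) = l) →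
      ∃ v, lev v = l + 1 ∧ back v = x ∧ sg v = s)
    (a : Fin K1 × Fin L1 → V) (ha : Function.Injective a) (hal : ∀ x, lev (a x) = 0)
    (P : V → Pl) (hP : Function.Injective P)
    (F1 : ∀ v j, lev v ≠ 0 → Function.Injective (back v) →
      (D (P v) (P (back v j)) ≤ 1 ↔ sg v j = true))
    (F2 : ∀ v j, lev v ≠ 0 → sg v j = true → D (P v) (P (back v j)) ≤ 1) : False := by
  classical
  -- patterns
  have pat : ∀ l, l < 3 → ∀ x y z : V, lev x = l → lev y = l → lev z = l →
      Thin (P x) (P y) (P z) → ∃ v v' : V, lev v = l + 1 ∧ lev v' = l + 1 ∧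
        back v = ![x, y, z] ∧ back v' = ![x, y, z] ∧
        (2 - 1 / 10000) ^ 2 ≤ D (P v) (P v') ∧
        dist (midpoint ℝ (P v) (P v')) (P y) ≤ 1 / 100 ∧ D (P v) (P y) ≤ 1 ∧
        D (P v') (P x) ≤ 1 := by
    intro l hl x y z hx hy hz hT
    obtain ⟨n1, n2, n3⟩ := hT.ne
    have hlev : ∀ j, lev ((![x, y, z] : Fin 3 → V) j) = l := by
      intro j; fin_cases j
      · exact hx
      · exact hy
      · exact hz
    have hinj : Function.Injective (![x, y, z] : Fin 3 → V) := by
      have m1 : x ≠ y := fun h => n1 (by rw [h])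
      have m2 : y ≠ z := fun h => n2 (by rw [h])
      have m3 : x ≠ z := fun h => n3 (by rw [h])
      intro i j hij
      fin_cases i <;> fin_cases j <;> simp_all
    obtain ⟨v, v1, v2, v3⟩ := hext l hl ![x, y, z] ![false, true, false] hlev
    obtain ⟨v', v1', v2', v3'⟩ := hext l hl ![x, y, z] ![true, false, true] hlev
    have i1 : Function.Injective (back v) := by rw [v2]; exact hinj
    have i2 : Function.Injective (back v') := by rw [v2']; exact hinj
    have f := fun j => F1 v j (by rw [v1]; exact Nat.succ_ne_zero _) i1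
    have f' := fun j => F1 v' j (by rw [v1']; exact Nat.succ_ne_zero _) i2
    rw [v2, v3] at f
    rw [v2', v3'] at f'
    have f0 := f 0
    have f1 := f 1
    have f2 := f 2
    have f0' := f' 0
    have f1' := f' 1
    have f2' := f' 2
    simp at f0 f1 f2 f0' f1' f2'
    obtain ⟨g1, g2⟩ := thin_pair' hT f1 f2 f0 f1' f2' f0'
    exact ⟨v, v', v1, v1', v2, v2', g1, g2, f1, f0'⟩
  -- the base point
  set x0 : Fin K1 × Fin L1 := (⟨0, K1_pos⟩, ⟨0, L1_pos⟩) with hx0
  set o : Pl := P (a x0) with ho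
  have hbase : ∀ x, dist (P (a x)) o ≤ 2 := by
    intro x
    obtain ⟨v, v1, v2, v3⟩ := hext 0 (by norm_num) ![a x, a x0, a x0] (fun _ => true) (by
      intro j; fin_cases j <;> exact hal _)
    have f := fun j => F2 v j (by rw [v1]; exact Nat.succ_ne_zero _) (by rw [v3])
    rw [v2] at f
    have f0 := D_le_one.2 (f 0)
    have f1 := D_le_one.2 (f 1)
    simp at f0 f1
    have := dist_triangle_left (P (a x)) o (P v)
    linarith
  -- thin triples in the blocks
  have hthin : ∀ i : Fin K1, ∃ l0 l1 l2 : Fin L1,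
      Thin (P (a (i, l0))) (P (a (i, l1))) (P (a (i, l2))) := by
    intro i
    refine exists_thin_of_bounded o (fun l => P (a (i, l))) ?_ (fun l => by
      have := hbase (i, l)
      linarith)
    intro l l' h
    have := ha (hP h)
    rw [Prod.mk.injEq] at this
    exact this.2
  choose l0 l1 l2 hT using hthin
  choose b b' hb1 hb1' hb2 hb2' hfar hmid hby hbx using fun i : Fin K1 =>
    pat 0 (by norm_num) _ _ _ (hal (i, l0 i)) (hal (i, l1 i)) (hal (i, l2 i)) (hT i)
  have hbinj : ∀ i j, b i = b j → i = j := by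
    intro i j h
    have h2 : back (b i) 0 = back (b j) 0 := by rw [h]
    rw [hb2, hb2] at h2
    have := ha h2
    rw [Prod.mk.injEq] at this
    exact this.1
  have hbinj' : ∀ i j, b' i = b' j → i = j := by
    intro i j h
    have h2 : back (b' i) 0 = back (b' j) 0 := by rw [h]
    rw [hb2', hb2'] at h2
    have := ha h2
    rw [Prod.mk.injEq] at this
    exact this.1
  obtain ⟨I, hI, hIb, hIb'⟩ := exists_cells o (fun i => P (b i)) (fun i => P (b' i))
    (fun i => by
      have h1 := D_le_one.2 (hby i)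
      have h2 := hbase (i, l1 i)
      have h3 := dist_triangle (P (b i)) (P (a (i, l1 i))) o
      linarith)
    (fun i => by
      have h1 := D_le_one.2 (hbx i)
      have h2 := hbase (i, l0 i)
      have h3 := dist_triangle (P (b' i)) (P (a (i, l0 i))) o
      linarith)
  obtain ⟨i0, _, i1, hi1, i2, _, hTi⟩ := exists_thin I (fun i => P (b i))
    (fun i _ j _ h => hbinj i j (hP h)) hIb hI
  obtain ⟨k0, _, k1, hk1, k2, _, hTk⟩ := exists_thin I (fun i => P (b' i))
    (fun i _ j _ h => hbinj' i j (hP h)) hIb' hI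
  obtain ⟨w, w', hw, hw', -, -, wfar, wmid, -, -⟩ :=
    pat 1 (by norm_num) _ _ _ (hb1 i0) (hb1 i1) (hb1 i2) hTi
  obtain ⟨y, y', hy, hy', -, -, yfar, ymid, -, -⟩ :=
    pat 1 (by norm_num) _ _ _ (hb1' k0) (hb1' k1) (hb1' k2) hTk
  obtain ⟨c1, c11, c12, c13⟩ := hext 2 (by norm_num) ![w, w', y] (fun _ => true) (by
    intro j; fin_cases j
    · exact hw
    · exact hw'
    · exact hy)
  obtain ⟨c2, c21, c22, c23⟩ := hext 2 (by norm_num) ![w, w', y'] (fun _ => true) (by
    intro j; fin_cases j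
    · exact hw
    · exact hw'
    · exact hy')
  have f := fun j => F2 c1 j (by rw [c11]; exact Nat.succ_ne_zero _) (by rw [c13])
  have g := fun j => F2 c2 j (by rw [c21]; exact Nat.succ_ne_zero _) (by rw [c23])
  rw [c12] at f
  rw [c22] at g
  have f0 := f 0
  have f1 := f 1
  have f2 := f 2
  have g0 := g 0
  have g1 := g 1
  have g2 := g 2
  simp at f0 f1 f2 g0 g1 g2
  have hcc := centers_close wfar yfar f0 f1 f2 g0 g1 g2
  have h1 := dist_triangle_left (P (b i1)) (midpoint ℝ (P y) (P y')) (midpoint ℝ (P w) (P w'))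
  have h2 := dist_triangle (P (b i1)) (midpoint ℝ (P y) (P y')) (P (b' k1))
  have h3 := dist_triangle (P (b i1)) (P (b' k1)) (P (b' i1))
  have h4 : dist (P (b' k1)) (P (b' i1)) ≤ 1 / 1000 := hIb' k1 hk1 i1 hi1
  have h5 : dist (P (b i1)) (P (b' i1)) ≤ 1 := by linarith
  have h6 := D_le_one.1 h5
  have h7 := hfar i1
  norm_num at h7
  linarith

end Pool.Agent.R6.PD
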