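import Pool.Agent.R6.PD.Geo

/-!
# Thin triples in large sets, and uniqueness of centres
-/

set_option autoImplicit false

namespace Pool.Agent.R6.PD

/-- Two nearly antipodal pairs which lie with a common centre have nearly the same midpoint. -/
theorem centers_close {a a' e e' c1 c2 : Pl} (h : (2 - 1 / 10000) ^ 2 ≤ D a a')
    (h' : (2 - 1 / 10000) ^ 2 ≤ D e e') (h1 : D c1 a ≤ 1) (h2 : D c1 a' ≤ 1) (h3 : D c1 e ≤ 1)
    (h4 : D c2 a ≤ 1) (h5 : D c2 a' ≤ 1) (h6 : D c2 e' ≤ 1) :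
    dist (midpoint ℝ a a') (midpoint ℝ e e') ≤ 15 / 100 := by
  have mid : ∀ x y c : Pl, D c (midpoint ℝ x y) = (D c x + D c y) / 2 - D x y / 4 := by
    intro x y c
    have h0 : (midpoint ℝ x y) 0 = (x 0 + y 0) / 2 := by
      simp [midpoint_eq_smul_add]; ring
    have h1 : (midpoint ℝ x y) 1 = (x 1 + y 1) / 2 := by
      simp [midpoint_eq_smul_add]; ring
    rw [D, D, D, D, h0, h1]
    ring
  have key : ∀ c : Pl, D c a ≤ 1 → D c a' ≤ 1 → dist c (midpoint ℝ a a') ≤ 1 / 100 := by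
    intro c hc hc'
    rw [D_le (by norm_num), mid]
    norm_num at h ⊢
    linarith
  have key2 : ∀ c x : Pl, dist c (midpoint ℝ a a') ≤ 1 / 100 → D c x ≤ 1 →
      D (midpoint ℝ a a') x ≤ (101 / 100) ^ 2 := by
    intro c x hc hx
    rw [← D_le (by norm_num)]
    have h7 := D_le_one.2 hx
    have h8 := dist_triangle_left (midpoint ℝ a a') x c
    linarith
  have g1 := key2 c1 e (key c1 h1 h2) h3
  have g2 := key2 c2 e' (key c2 h4 h5) h6
  rw [D_le (by norm_num), mid]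
  norm_num at h' g1 g2 ⊢
  linarith

/-- The cell of a point. -/
noncomputable def cell (x : ℝ × ℝ) : ℤ × ℤ := (⌊2000 * x.1⌋, ⌊2000 * x.2⌋)

theorem cell_near {x y : ℝ × ℝ} (h : cell x = cell y) :
    |x.1 - y.1| ≤ 1 / 2000 ∧ |x.2 - y.2| ≤ 1 / 2000 := by
  rw [cell, cell, Prod.mk.injEq] at h
  constructor
  · have := Int.abs_sub_lt_one_of_floor_eq_floor h.1
    rw [abs_lt] at this
    rw [abs_le]
    constructor <;> linarith
  · have := Int.abs_sub_lt_one_of_floor_eq_floor h.2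
    rw [abs_lt] at this
    rw [abs_le]
    constructor <;> linarith

theorem exists_box : ∃ B : Finset (ℤ × ℤ), ∀ x : ℝ × ℝ, |x.1| ≤ 4 → |x.2| ≤ 4 → cell x ∈ B := by
  refine ⟨Finset.Icc (-8000) 8000 ×ˢ Finset.Icc (-8000) 8000, ?_⟩
  intro x h1 h2
  rw [abs_le] at h1 h2
  rw [cell, Finset.mem_product, Finset.mem_Icc, Finset.mem_Icc]
  refine ⟨⟨?_, ?_⟩, ⟨?_, ?_⟩⟩
  · apply Int.le_floor.2; push_cast; linarith
  · have : ((⌊2000 * x.1⌋ : ℤ) : ℝ) ≤ ((8000 : ℤ) : ℝ) :=
      (Int.floor_le _).trans (by push_cast; linarith)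
    exact_mod_cast this
  · apply Int.le_floor.2; push_cast; linarith
  · have : ((⌊2000 * x.2⌋ : ℤ) : ℝ) ≤ ((8000 : ℤ) : ℝ) :=
      (Int.floor_le _).trans (by push_cast; linarith)
    exact_mod_cast this

/-- The box of cells. -/
noncomputable def box : Finset (ℤ × ℤ) := Classical.choose exists_box

theorem cell_mem {x : ℝ × ℝ} (h1 : |x.1| ≤ 4) (h2 : |x.2| ≤ 4) : cell x ∈ box :=
  Classical.choose_spec exists_box x h1 h2

/-- The number of sets of cells. -/
noncomputable def L0 : ℕ := box.powerset.card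

theorem L0_def : L0 = box.powerset.card := rfl

attribute [irreducible] L0 box

/-- A family of more than `L0` distinct points of small diameter contains a thin triple. -/
theorem exists_thin {ι : Type} (I : Finset ι) (x : ι → Pl)
    (hx : ∀ i ∈ I, ∀ j ∈ I, x i = x j → i = j)
    (hd : ∀ i ∈ I, ∀ j ∈ I, dist (x i) (x j) ≤ 1 / 1000) (hI : L0 < I.card) :
    ∃ i ∈ I, ∃ j ∈ I, ∃ k ∈ I, Thin (x i) (x j) (x k) := by
  classical
  let dir : ι → ι → ℝ × ℝ := fun i j =>
    ((x j 0 - x i 0) / dist (x i) (x j), (x j 1 - x i 1) / dist (x i) (x j))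
  have hpos : ∀ i ∈ I, ∀ j ∈ I, i ≠ j → 0 < dist (x i) (x j) := fun i hi j hj hij =>
    dist_pos.2 fun h => hij (hx i hi j hj h)
  have hunit : ∀ i ∈ I, ∀ j ∈ I, i ≠ j → (dir i j).1 ^ 2 + (dir i j).2 ^ 2 = 1 := by
    intro i hi j hj hij
    have h1 := hpos i hi j hj hij
    have h2 : (x j 0 - x i 0) ^ 2 + (x j 1 - x i 1) ^ 2 = dist (x i) (x j) ^ 2 := by
      rw [← D_eq, D]; ring
    simp only [dir]
    rw [div_pow, div_pow, ← add_div, h2, div_self (by positivity)]
  let S : ι → Finset (ℤ × ℤ) := fun j => (I.erase j).image fun i => cell (dir i j)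
  have hS : ∀ j ∈ I, S j ∈ box.powerset := by
    intro j hj
    rw [Finset.mem_powerset]
    intro c hc
    obtain ⟨i, hi, rfl⟩ := Finset.mem_image.1 hc
    rw [Finset.mem_erase] at hi
    have h1 := hunit i hi.2 j hj hi.1
    apply cell_mem
    · have : (dir i j).1 ^ 2 ≤ 1 := by linarith [sq_nonneg (dir i j).2]
      linarith [(sq_le_one_iff_abs_le_one _).1 this]
    · have : (dir i j).2 ^ 2 ≤ 1 := by linarith [sq_nonneg (dir i j).1]
      linarith [(sq_le_one_iff_abs_le_one _).1 this]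
  obtain ⟨j, hj, k, hk, hjk, hSjk⟩ :=
    Finset.exists_ne_map_eq_of_card_lt_of_maps_to (t := box.powerset) (by rw [← L0_def]; exact hI) (f := S) (fun a ha => hS a ha)
  have hc : cell (dir j k) ∈ S k :=
    Finset.mem_image.2 ⟨j, Finset.mem_erase.2 ⟨hjk, hj⟩, rfl⟩
  rw [← hSjk] at hc
  obtain ⟨i, hi, hic⟩ := Finset.mem_image.1 hc
  rw [Finset.mem_erase] at hi
  obtain ⟨n1, n2⟩ := cell_near hic
  refine ⟨i, hi.2, j, hj, k, hk, dist (x i) (x j), dist (x j) (x k), (dir i j).1, (dir i j).2,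
    (dir j k).1, (dir j k).2, hpos i hi.2 j hj hi.1, hd i hi.2 j hj, hpos j hj k hk hjk,
    hd j hj k hk, hunit i hi.2 j hj hi.1, hunit j hj k hk hjk, ?_, ?_, ?_, ?_, ?_⟩
  · have m1 : ((dir i j).1 - (dir j k).1) ^ 2 ≤ (1 / 2000) ^ 2 := by
      rw [← sq_abs]; exact pow_le_pow_left₀ (abs_nonneg _) n1 2
    have m2 : ((dir i j).2 - (dir j k).2) ^ 2 ≤ (1 / 2000) ^ 2 := by
      rw [← sq_abs]; exact pow_le_pow_left₀ (abs_nonneg _) n2 2
    norm_num at m1 m2 ⊢
    linarith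
  · simp only [dir]
    rw [mul_div_cancel₀ _ (hpos i hi.2 j hj hi.1).ne']
  · simp only [dir]
    rw [mul_div_cancel₀ _ (hpos i hi.2 j hj hi.1).ne']
  · simp only [dir]
    rw [mul_div_cancel₀ _ (hpos j hj k hk hjk).ne']
  · simp only [dir]
    rw [mul_div_cancel₀ _ (hpos j hj k hk hjk).ne']

/-- The cell of a point of the plane relative to the point `o`. -/
noncomputable def pcell (o x : Pl) : ℤ × ℤ := cell (x 0 - o 0, x 1 - o 1)

theorem pcell_mem {o x : Pl} (h : dist x o ≤ 4) : pcell o x ∈ box := by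
  have h1 := (D_le (by norm_num : (0:ℝ) ≤ 4)).1 h
  rw [D] at h1
  apply cell_mem
  · apply abs_le_of_sq_le_sq _ (by norm_num)
    simp only
    linarith [sq_nonneg (x 1 - o 1)]
  · apply abs_le_of_sq_le_sq _ (by norm_num)
    simp only
    linarith [sq_nonneg (x 0 - o 0)]

theorem pcell_near {o x y : Pl} (h : pcell o x = pcell o y) : dist x y ≤ 1 / 1000 := by
  obtain ⟨n1, n2⟩ := cell_near h
  simp only at n1 n2
  rw [D_le (by norm_num), D]
  have m1 : (x 0 - o 0 - (y 0 - o 0)) ^ 2 ≤ (1 / 2000) ^ 2 := by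
    rw [← sq_abs]; exact pow_le_pow_left₀ (abs_nonneg _) n1 2
  have m2 : (x 1 - o 1 - (y 1 - o 1)) ^ 2 ≤ (1 / 2000) ^ 2 := by
    rw [← sq_abs]; exact pow_le_pow_left₀ (abs_nonneg _) n2 2
  have e1 : x 0 - o 0 - (y 0 - o 0) = x 0 - y 0 := by ring
  have e2 : x 1 - o 1 - (y 1 - o 1) = x 1 - y 1 := by ring
  rw [e1] at m1
  rw [e2] at m2
  norm_num at m1 m2 ⊢
  linarith

/-- The size of a family which has a thin triple. -/
noncomputable def L1 : ℕ := box.card * L0 + 1

/-- The size of a family of pairs with a large subfamily in one pair of cells. -/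
noncomputable def K1 : ℕ := (box ×ˢ box).card * L0 + 1

attribute [irreducible] L1 K1

theorem exists_thin_of_bounded (o : Pl) (x : Fin L1 → Pl) (hx : Function.Injective x)
    (hb : ∀ i, dist (x i) o ≤ 4) : ∃ i j k, Thin (x i) (x j) (x k) := by
  classical
  obtain ⟨c, _, hc⟩ := Finset.exists_lt_card_fiber_of_mul_lt_card_of_maps_to
    (s := (Finset.univ : Finset (Fin L1))) (t := box) (f := fun i => pcell o (x i)) (n := L0)
    (fun i _ => pcell_mem (hb i)) (by rw [Finset.card_univ, Fintype.card_fin, L1]; omega)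
  obtain ⟨i, _, j, _, k, _, h⟩ := exists_thin _ x (fun i _ j _ h => hx h)
    (fun i hi j hj => pcell_near (o := o) (by
      rw [Finset.mem_filter] at hi hj
      exact hi.2.trans hj.2.symm)) hc
  exact ⟨i, j, k, h⟩

theorem exists_cells (o : Pl) (b b' : Fin K1 → Pl) (hb : ∀ i, dist (b i) o ≤ 4)
    (hb' : ∀ i, dist (b' i) o ≤ 4) : ∃ I : Finset (Fin K1), L0 < I.card ∧
      (∀ i ∈ I, ∀ j ∈ I, dist (b i) (b j) ≤ 1 / 1000) ∧
      (∀ i ∈ I, ∀ j ∈ I, dist (b' i) (b' j) ≤ 1 / 1000) := by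
  classical
  obtain ⟨c, _, hc⟩ := Finset.exists_lt_card_fiber_of_mul_lt_card_of_maps_to
    (s := (Finset.univ : Finset (Fin K1))) (t := box ×ˢ box)
    (f := fun i => (pcell o (b i), pcell o (b' i))) (n := L0)
    (fun i _ => Finset.mem_product.2 ⟨pcell_mem (hb i), pcell_mem (hb' i)⟩)
    (by rw [Finset.card_univ, Fintype.card_fin, K1]; omega)
  refine ⟨_, hc, ?_, ?_⟩
  · intro i hi j hj
    rw [Finset.mem_filter] at hi hj
    have := hi.2.trans hj.2.symm
    rw [Prod.mk.injEq] at this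
    exact pcell_near this.1
  · intro i hi j hj
    rw [Finset.mem_filter] at hi hj
    have := hi.2.trans hj.2.symm
    rw [Prod.mk.injEq] at this
    exact pcell_near this.2

end Pool.Agent.R6.PD
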